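import Pool.Agent.KS6_40.CR.Geom

set_option autoImplicit false

/-!
MP_f3b8e9_an, stronger than the library results `ConvexClosureFails` (one convex domain, whose
definitions are used) and `EveryDisc` (all discs).  The closure statement fails on EVERY convex
domain which contains no complete straight line (every bounded convex domain, every angle, ...),
for every even order `n = 2 m`, with infinite codimension.  The two families of functionals are
`f ↦ f^(2i)(a)` and `f ↦ f^(2i)(b) + f^(2i)(c)`, `0 ≤ i < m`.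
-/

namespace Pool.Agent.Results.MP_f3b8e9_an.LineFreeDomains

open Pool.Agent.Results.MP_f3b8e9_an.ConvexClosureFails
open Pool.Agent.Y519.CF
open Pool.Agent.KS6_40.CR

lemma line_of_bounded {Ω : Set ℂ} (h : Bornology.IsBounded Ω) (p d : ℂ) (hd : d ≠ 0) :
    ∃ t : ℝ, p + t * d ∉ Ω := by
  obtain ⟨R, hR⟩ := h.subset_closedBall 0
  have hdn : 0 < ‖d‖ := norm_pos_iff.mpr hd
  refine ⟨(|R| + ‖p‖ + 1) / ‖d‖, fun hin => ?_⟩
  have h1 := hR hin
  rw [mem_closedBall_iff_norm, sub_zero] at h1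
  set t : ℝ := (|R| + ‖p‖ + 1) / ‖d‖ with ht
  have ht0 : 0 ≤ t := by positivity
  have h2 : ‖(t : ℂ) * d‖ = |R| + ‖p‖ + 1 := by
    rw [norm_mul, Complex.norm_real, Real.norm_of_nonneg ht0, ht]
    field_simp
  have h3 : ‖(t : ℂ) * d‖ ≤ ‖p + t * d‖ + ‖p‖ := by
    calc ‖(t : ℂ) * d‖ = ‖(p + t * d) - p‖ := by rw [add_sub_cancel_left]
      _ ≤ ‖p + t * d‖ + ‖p‖ := norm_sub_le _ _
  have h4 := le_abs_self R
  linarith

/-- **Main result.**  Let `Ω ∋ 0` be any convex domain which is bounded or, more generally,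
contains no complete straight line, and let `n = 2 m` be any even order, `m ≥ 1`.  Take
`ℓ = (d/dz)^n`.  There are three points `a, b, c` of `Ω` such that for the `n` functionals
`f ↦ f^(2i)(a)`, `f ↦ f^(2i)(b) + f^(2i)(c)` (`0 ≤ i < m`) one has: `Δ` is not identically zero,
but `Cl ≠ D_∞`; the closure of the span of the root vectors has infinite codimension: there are
`g_0, g_1, g_2, ...` in `D_∞` no nontrivial linear combination of which lies in `Cl`. -/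
theorem result (Ω : Set ℂ) (hΩ : IsOpen Ω) (hcv : Convex ℝ Ω) (h0 : (0 : ℂ) ∈ Ω)
    (hline : Bornology.IsBounded Ω ∨ ∀ p d : ℂ, d ≠ 0 → ∃ t : ℝ, p + t * d ∉ Ω)
    (m : ℕ) (hm : 1 ≤ m) :
    ∃ (a b c : Ω) (φ : Fin (2 * m) → (A Ω →L[ℂ] ℂ)),
      (∀ (i : ℕ) (hi : i < m) (f : A Ω),
        φ ⟨2 * i, by omega⟩ f = ((D hΩ)^[2 * i] f).1 a ∧
        φ ⟨2 * i + 1, by omega⟩ f = ((D hΩ)^[2 * i] f).1 b + ((D hΩ)^[2 * i] f).1 c) ∧
      DeltaNeZero hΩ h0 (2 * m) (fun _ => 0) φ ∧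
      Cl hΩ (2 * m) (fun _ => 0) φ ≠ DInfty hΩ (2 * m) (fun _ => 0) φ ∧
      ∃ g : ℕ → A Ω, (∀ k, g k ∈ DInfty hΩ (2 * m) (fun _ => 0) φ) ∧
        ∀ (s : Finset ℕ) (u : ℕ → ℂ),
          ∑ k ∈ s, u k • g k ∈ Cl hΩ (2 * m) (fun _ => 0) φ → ∀ k ∈ s, u k = 0 := by
  have hline' : ∀ p d : ℂ, d ≠ 0 → ∃ t : ℝ, p + t * d ∉ Ω := by
    rcases hline with h | h
    · exact line_of_bounded h
    · exact h
  obtain ⟨a, c, r, z0, z1, hD⟩ := exists_config hΩ hcv h0 hline'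
  obtain ⟨hdelta, g, hg, hind⟩ := fail hΩ hcv h0 hD m hm
  refine ⟨⟨a, hD.ha⟩, ⟨c + r, hD.hb⟩, ⟨c - r, hD.hd⟩, phT hΩ hD.ha hD.hb hD.hd m, ?_, hdelta, ?_,
    g, hg, hind⟩
  · intro i hi f
    constructor
    · rw [phT_a hΩ hD.ha hD.hb hD.hd m i hi]; rfl
    · rw [phT_b hΩ hD.ha hD.hb hD.hd m i hi]; rfl
  · intro hEq
    have h1 := hg 0
    rw [← hEq] at h1
    have h2 := hind {0} (fun _ => 1)
      (by rw [Finset.sum_singleton, one_smul]; exact h1) 0 (Finset.mem_singleton_self 0)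
    exact one_ne_zero h2

end Pool.Agent.Results.MP_f3b8e9_an.LineFreeDomains
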